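import Mathlib

namespace Pool.Agent.Results.MP_337eac_co.NotMCFinite

open Finset SimpleGraph

/-- A class of finite graphs (given by its members on the vertex sets `Fin n`) is monotone: it is
closed under isomorphism and under taking subgraphs (`H ⊑ G` says that `H` is isomorphic to a
not necessarily induced subgraph of `G`). -/
def IsMonotone (C : ∀ n, SimpleGraph (Fin n) → Prop) : Prop :=
  ∀ (m n : ℕ) (H : SimpleGraph (Fin m)) (G : SimpleGraph (Fin n)), H ⊑ G → C n G → C m H

/-- The speed: the number of labelled graphs on `n` vertices in the class. -/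
noncomputable def speed (C : ∀ n, SimpleGraph (Fin n) → Prop) (n : ℕ) : ℕ :=
  {G : SimpleGraph (Fin n) | C n G}.ncard

/-- MC-finite integer sequences. -/
def MCFinite (s : ℕ → ℤ) : Prop :=
  ∀ m : ℕ, 1 ≤ m → ∃ r p : ℕ, 1 ≤ r ∧ 1 ≤ p ∧ ∃ α : Fin p → ℤ,
    ∀ n, r ≤ n → s (n + p) ≡ ∑ i : Fin p, α i * s (n + i) [ZMOD m]

/-- the odd cycle. -/
def cyc (k : ℕ) : SimpleGraph (ZMod (2 * k + 3)) where
  Adj a b := a ≠ b ∧ (a - b = 1 ∨ b - a = 1)
  symm := ⟨fun _ _ h => ⟨h.1.symm, h.2.symm⟩⟩
  loopless := ⟨fun _ h => h.1 rfl⟩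

theorem small_ne (k : ℕ) (c : ℤ) (hc : c ≠ 0) (h : |c| < 2 * k + 3 ∨ |c| = 4) :
    (c : ZMod (2 * k + 3)) ≠ 0 := by
  intro h0
  rw [ZMod.intCast_zmod_eq_zero_iff_dvd] at h0
  rcases h with h | h
  · exact hc (Int.eq_zero_of_abs_lt_dvd h0 (by push_cast; exact h))
  · rw [← dvd_abs, h] at h0
    have h1 : 2 * k + 3 ∣ 4 := by exact_mod_cast h0
    have h2 := Nat.le_of_dvd (by norm_num) h1
    have : k = 0 := by omega
    subst this
    simp at h1

theorem cyc_succ (k : ℕ) (a : ZMod (2 * k + 3)) : (cyc k).Adj (a + 1) a :=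
  ⟨fun h => small_ne k 1 one_ne_zero (Or.inl (by simp; omega)) (by
    push_cast; linear_combination h), Or.inl (by ring)⟩

theorem cyc_twin (k : ℕ) (a b : ZMod (2 * k + 3))
    (h : ∀ c, (cyc k).Adj c a ↔ (cyc k).Adj c b) : a = b := by
  have h1 := ((h _).mp (cyc_succ k a)).2
  have h2 : (cyc k).Adj (a - 1) a := by
    have := cyc_succ k (a - 1)
    rw [sub_add_cancel] at this
    exact this.symm
  have h3 := ((h _).mp h2).2
  rcases h1 with h1 | h1
  · linear_combination h1
  · rcases h3 with h3 | h3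
    · exact absurd (by push_cast; linear_combination -h1 - h3)
        (small_ne k 4 (by norm_num) (Or.inr (by norm_num)))
    · linear_combination -h3

theorem no_hom {j k : ℕ} (hjk : j < k) (φ : ZMod (2 * j + 3) → ZMod (2 * k + 3))
    (h : ∀ i, (cyc k).Adj (φ (i + 1)) (φ i)) : False := by
  have : ∀ i, ∃ ε : ℤ, (ε = 1 ∨ ε = -1) ∧ (ε : ZMod (2 * k + 3)) = φ (i + 1) - φ i := by
    intro i
    rcases (h i).2 with h1 | h1
    · exact ⟨1, Or.inl rfl, by rw [h1]; simp⟩
    · exact ⟨-1, Or.inr rfl, by push_cast; linear_combination h1⟩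
  choose ε h1 h2 using this
  have h3 : ((∑ i, ε i : ℤ) : ZMod (2 * k + 3)) = 0 := by
    push_cast
    rw [Finset.sum_congr rfl fun i _ => h2 i, Finset.sum_sub_distrib,
      ← Equiv.sum_comp (Equiv.addRight (1 : ZMod (2 * j + 3))) φ]
    exact sub_self _
  refine small_ne k _ ?_ (Or.inl ?_) h3
  · intro h0
    have : (∑ i, ε i) % 2 = 1 := by
      rw [Finset.sum_int_mod, Finset.sum_congr rfl (g := fun _ => 1) fun i _ => by
        rcases h1 i with h | h <;> rw [h] <;> rfl]
      simp [ZMod.card]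
    omega
  · refine lt_of_le_of_lt (Finset.abs_sum_le_sum_abs _ _) ?_
    rw [Finset.sum_congr rfl (g := fun _ => 1) fun i _ => by
      rcases h1 i with h | h <;> rw [h] <;> rfl]
    simp [ZMod.card]; omega

/-- vertex type of the blow-up. -/
abbrev W (k : ℕ) : Type := Σ i : ZMod (2 * k + 3), Fin (2 ^ i.val)

/-- number of vertices of the blow-up. -/
def nn (k : ℕ) : ℕ := Fintype.card (W k)

/-- the part of a vertex. -/
noncomputable def pt (k : ℕ) (v : Fin (nn k)) : ZMod (2 * k + 3) :=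
  ((Fintype.equivFin (W k)).symm v).1

/-- the blow-up of the odd cycle with parts of sizes `1, 2, 4, …`. -/
noncomputable def B (k : ℕ) : SimpleGraph (Fin (nn k)) := (cyc k).comap (pt k)

theorem nn_eq (k : ℕ) : nn k = ∑ i ∈ range (2 * k + 3), 2 ^ i := by
  rw [nn, Fintype.card_sigma]
  simp only [Fintype.card_fin]
  exact Fin.sum_univ_eq_sum_range (fun i => 2 ^ i) (2 * k + 3)

theorem nn_mono : StrictMono nn := by
  refine strictMono_nat_of_lt_succ fun k => ?_
  rw [nn_eq, nn_eq, show 2 * (k + 1) + 3 = 2 * k + 3 + 1 + 1 by ring, Finset.sum_range_succ _ (2 * k + 3 + 1),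
    Finset.sum_range_succ _ (2 * k + 3)]
  have := Nat.two_pow_pos (2 * k + 3)
  omega

theorem fib_card (k : ℕ) (i : ZMod (2 * k + 3)) :
    Fintype.card {v // pt k v = i} = 2 ^ i.val := by
  rw [← Fintype.card_fin (2 ^ i.val)]
  refine Fintype.card_congr (((Fintype.equivFin (W k)).symm.subtypeEquiv
    (q := fun w => w.1 = i) fun v => Iff.rfl).trans ?_)
  exact Equiv.sigmaSubtype i

theorem pt_surj (k : ℕ) : Function.Surjective (pt k) := fun i =>
  ⟨Fintype.equivFin (W k) ⟨i, ⟨0, Nat.two_pow_pos _⟩⟩, by simp [pt]⟩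

theorem anti {j k : ℕ} (h : B j ⊑ B k) : j = k := by
  obtain ⟨c⟩ := h
  rcases lt_trichotomy j k with hjk | hjk | hjk
  · exfalso
    choose s hs using pt_surj j
    refine no_hom hjk (fun i => pt k (c (s i))) fun i => ?_
    have : (B j).Adj (s (i + 1)) (s i) := by
      show (cyc j).Adj _ _
      rw [hs, hs]; exact cyc_succ j i
    exact c.toHom.map_rel this
  · exact hjk
  · have := Fintype.card_le_of_injective _ c.injective
    rw [Fintype.card_fin, Fintype.card_fin] at this
    exact absurd (nn_mono hjk) (not_lt.mpr this)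

theorem iso_of_contained {m n : ℕ} {H : SimpleGraph (Fin m)} {G : SimpleGraph (Fin n)}
    (h1 : H ⊑ G) (h2 : G ⊑ H) : Nonempty (H ≃g G) := by
  classical
  obtain ⟨c⟩ := h1
  obtain ⟨d⟩ := h2
  have hb : Function.Bijective c := by
    rw [Fintype.bijective_iff_injective_and_card]
    exact ⟨c.injective, le_antisymm (Fintype.card_le_of_injective _ c.injective)
      (Fintype.card_le_of_injective _ d.injective)⟩
  let PH := univ.filter fun p : Fin m × Fin m => H.Adj p.1 p.2
  let PG := univ.filter fun p : Fin n × Fin n => G.Adj p.1 p.2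
  have hle : PG.card ≤ PH.card := by
    refine Finset.card_le_card_of_injOn (Prod.map d d) (fun p hp => ?_)
      (d.injective.prodMap d.injective).injOn
    simp only [PG, PH, Finset.coe_filter, Finset.mem_univ, true_and, Set.mem_ofPred_eq] at hp ⊢
    exact d.toHom.map_rel hp
  have hsub : PH.image (Prod.map c c) ⊆ PG := by
    intro p hp
    obtain ⟨q, hq, rfl⟩ := Finset.mem_image.mp hp
    simp only [PG, PH, Finset.mem_filter, Finset.mem_univ, true_and] at hq ⊢
    exact c.toHom.map_rel hq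
  have heq := Finset.eq_of_subset_of_card_le hsub (by
    rw [Finset.card_image_of_injective _ (hb.1.prodMap hb.1)]; exact hle)
  refine ⟨⟨Equiv.ofBijective c hb, fun {a b} => ⟨fun hab => ?_, fun hab => c.toHom.map_rel hab⟩⟩⟩
  have : (c a, c b) ∈ PG := by
    simp only [PG, Finset.mem_filter, Finset.mem_univ, true_and]; exact hab
  rw [← heq] at this
  obtain ⟨q, hq, hq'⟩ := Finset.mem_image.mp this
  have : q = (a, b) := (hb.1.prodMap hb.1) hq'
  subst this
  simpa [PH] using hq

theorem choose_odd (m : ℕ) : ∀ k, k ≤ 2 ^ m - 1 → (2 ^ m - 1).choose k % 2 = 1 := by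
  intro k
  induction k with
  | zero => simp
  | succ k ih =>
    intro hk
    have h0 := Nat.two_pow_pos m
    have h1 := Nat.prime_two.dvd_choose_pow (n := m) (k := k + 1) (by omega) (by omega)
    have h2 := Nat.choose_succ_succ' (2 ^ m - 1) k
    rw [show 2 ^ m - 1 + 1 = 2 ^ m by omega] at h2
    have := ih (by omega)
    omega

theorem fact_odd (r : ℕ) : ∃ c, c % 2 = 1 ∧
    (∑ i ∈ range r, 2 ^ i).factorial = c * ∏ i ∈ range r, (2 ^ i).factorial := by
  induction r with
  | zero => exact ⟨1, rfl, by simp⟩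
  | succ r ih =>
    obtain ⟨c, hc, h⟩ := ih
    have hs : ∑ i ∈ range r, 2 ^ i + 2 ^ r = 2 ^ (r + 1) - 1 := by
      rw [← Finset.sum_range_succ, Nat.geomSum_eq le_rfl]; simp
    have h0 := Nat.two_pow_pos r
    have h1 := choose_odd (r + 1) (2 ^ r) (by rw [pow_succ]; omega)
    refine ⟨(2 ^ (r + 1) - 1).choose (2 ^ r) * c, by rw [Nat.mul_mod, h1, hc], ?_⟩
    rw [Finset.sum_range_succ, Finset.prod_range_succ, ← Nat.add_choose_mul_factorial_mul_factorial,
      hs, h]
    ring

theorem copies_odd (k : ℕ) :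
    {H : SimpleGraph (Fin (nn k)) | Nonempty (H ≃g B k)}.ncard % 2 = 1 := by
  classical
  let O := univ.image fun σ : Equiv.Perm (Fin (nn k)) => pt k ∘ σ
  have hfib : ∀ (σ : Equiv.Perm (Fin (nn k))) (i : ZMod (2 * k + 3)),
      (univ.filter fun v => pt k (σ v) = i).card = 2 ^ i.val := by
    intro σ i
    rw [← fib_card, Fintype.card_subtype]
    exact Finset.card_bijective σ σ.bijective fun v => by simp
  have hset : {H : SimpleGraph (Fin (nn k)) | Nonempty (H ≃g B k)}
      = (O.image fun g => (cyc k).comap g : Finset _) := by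
    ext H
    simp only [O, Set.mem_ofPred_eq, Finset.coe_image, Finset.coe_univ, Set.image_univ,
      Set.mem_image, Set.mem_range]
    constructor
    · rintro ⟨e⟩
      refine ⟨_, ⟨e.toEquiv, rfl⟩, ?_⟩
      ext a b
      exact e.map_rel_iff
    · rintro ⟨_, ⟨σ, rfl⟩, rfl⟩
      exact ⟨⟨σ, Iff.rfl⟩⟩
  have hinj : Set.InjOn (fun g => (cyc k).comap g) (O : Set (Fin (nn k) → ZMod (2 * k + 3))) := by
    have key : ∀ (σ : Equiv.Perm (Fin (nn k))) (u : Fin (nn k)),
        (univ.filter fun v => ∀ w, ((cyc k).comap (pt k ∘ σ)).Adj w v ↔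
          ((cyc k).comap (pt k ∘ σ)).Adj w u).card = 2 ^ (pt k (σ u)).val := by
      intro σ u
      rw [← hfib σ]
      congr 1
      refine Finset.filter_congr fun v _ => ⟨fun h => cyc_twin k _ _ fun c => ?_, fun h w => ?_⟩
      · obtain ⟨w, rfl⟩ := ((pt_surj k).comp σ.surjective) c
        exact h w
      · simp only [comap_adj, Function.comp_apply, h]
    intro g hg g' hg' h
    obtain ⟨σ, -, rfl⟩ := Finset.mem_image.mp hg
    obtain ⟨τ, -, rfl⟩ := Finset.mem_image.mp hg'
    funext u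
    have h1 := key σ u
    have h2 := key τ u
    have h' : (cyc k).comap (pt k ∘ σ) = (cyc k).comap (pt k ∘ τ) := h
    refine ZMod.val_injective _ (Nat.pow_right_injective le_rfl ((h1.symm.trans ?_).trans h2))
    congr 1
    exact Finset.filter_congr fun v _ => by rw [h']
  rw [hset, Set.ncard_coe_finset, Finset.card_image_of_injOn hinj]
  have hst := DomMulAct.stabilizer_card (pt k)
  simp only [fib_card] at hst
  have hp : ∏ i : ZMod (2 * k + 3), (2 ^ i.val).factorial
      = ∏ i ∈ range (2 * k + 3), (2 ^ i).factorial :=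
    Fin.prod_univ_eq_prod_range (fun i : ℕ => Nat.factorial (2 ^ i)) (2 * k + 3)
  rw [hp, Fintype.card_subtype] at hst
  have hcount := Finset.card_eq_sum_card_image
    (fun σ : Equiv.Perm (Fin (nn k)) => pt k ∘ σ) univ
  rw [Finset.sum_congr rfl (g := fun _ => ∏ i ∈ range (2 * k + 3), (2 ^ i).factorial) (by
    intro g hg
    obtain ⟨τ, -, rfl⟩ := Finset.mem_image.mp hg
    rw [← hst]
    refine Finset.card_bijective (fun σ => σ * τ⁻¹) (Group.mulRight_bijective _) fun σ => ?_
    simp only [Finset.mem_filter, Finset.mem_univ, true_and]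
    constructor
    · intro h; funext v
      have := congrFun h (τ⁻¹ v)
      simpa using this
    · intro h; funext v
      have := congrFun h (τ v)
      simpa using this), Finset.sum_const, smul_eq_mul, Finset.card_univ, Fintype.card_perm,
    Fintype.card_fin] at hcount
  obtain ⟨c, hc, h⟩ := fact_odd (2 * k + 3)
  rw [← nn_eq, hcount] at h
  rw [Nat.eq_of_mul_eq_mul_right (Finset.prod_pos fun i _ => Nat.factorial_pos _) h, hc]

/-- the class attached to a set of indices. -/
def CS (S : Set ℕ) (n : ℕ) (H : SimpleGraph (Fin n)) : Prop :=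
  (∀ k, ¬ B k ⊑ H) ∨ ∃ k ∈ S, Nonempty (H ≃g B k)

theorem CS_mono (S : Set ℕ) : IsMonotone (CS S) := by
  intro m n H G hHG hG
  rcases hG with hG | ⟨k, hk, ⟨e⟩⟩
  · exact Or.inl fun k h => hG k (h.trans hHG)
  · by_cases h : ∀ j, ¬ B j ⊑ H
    · exact Or.inl h
    · push Not at h
      obtain ⟨j, hj⟩ := h
      have hH : H ⊑ B k := hHG.trans ⟨e.toCopy⟩
      obtain rfl := anti (hj.trans hH)
      exact Or.inr ⟨j, hk, iso_of_contained hH hj⟩

theorem speed_parity (S S' : Set ℕ) (k : ℕ) (h1 : k ∈ S) (h2 : k ∉ S') :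
    speed (CS S) (nn k) % 2 ≠ speed (CS S') (nn k) % 2 := by
  have idx : ∀ (H : SimpleGraph (Fin (nn k))) (j : ℕ), Nonempty (H ≃g B j) → j = k := by
    rintro H j ⟨e⟩
    have := Fintype.card_congr e.toEquiv
    rw [Fintype.card_fin, Fintype.card_fin] at this
    exact (nn_mono.injective this).symm
  have e1 : {G | CS S (nn k) G} = {G | ∀ j, ¬ B j ⊑ G} ∪ {H | Nonempty (H ≃g B k)} := by
    ext G
    refine or_congr Iff.rfl ⟨?_, fun h => ⟨k, h1, h⟩⟩
    rintro ⟨j, _, hj⟩
    exact idx G j hj ▸ hj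
  have e2 : {G | CS S' (nn k) G} = {G | ∀ j, ¬ B j ⊑ G} := by
    ext G
    refine or_iff_left ?_
    rintro ⟨j, hj, hj'⟩
    exact h2 (idx G j hj' ▸ hj)
  have := copies_odd k
  rw [speed, speed, e1, e2, Set.ncard_union_eq]
  · omega
  · rw [Set.disjoint_left]
    rintro G hG ⟨e⟩
    exact hG k ⟨e.symm.toCopy⟩

theorem result : ∃ C : ∀ n, SimpleGraph (Fin n) → Prop,
    IsMonotone C ∧ ¬ MCFinite fun n => (speed C n : ℤ) := by
  by_contra hc
  push Not at hc
  have h := fun S => hc (CS S) (CS_mono S) 2 (by norm_num)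
  choose r p _ hp α hα using h
  let Φ : Set ℕ → Σ r p : ℕ, (Fin p → ℤ) × (Fin (r + p) → ℤ) := fun S =>
    ⟨r S, p S, α S, fun i => (speed (CS S) i : ℤ)⟩
  have hinj : Function.Injective Φ := by
    intro S S' hS
    have key : ∀ (s s' : ℕ → ℤ) (r p r' p' : ℕ) (α : Fin p → ℤ) (α' : Fin p' → ℤ), 1 ≤ p →
        (∀ n, r ≤ n → s (n + p) ≡ ∑ i : Fin p, α i * s (n + i) [ZMOD (2 : ℕ)]) →
        (∀ n, r' ≤ n → s' (n + p') ≡ ∑ i : Fin p', α' i * s' (n + i) [ZMOD (2 : ℕ)]) →
        (⟨r, p, α, fun i => s i⟩ : Σ r p : ℕ, (Fin p → ℤ) × (Fin (r + p) → ℤ))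
          = ⟨r', p', α', fun i => s' i⟩ → ∀ n, s n ≡ s' n [ZMOD (2 : ℕ)] := by
      intro s s' r p r' p' α α' hp h1 h2 he
      obtain ⟨rfl, he1⟩ := Sigma.mk.inj_iff.mp he
      obtain ⟨rfl, he2⟩ := Sigma.mk.inj_iff.mp (eq_of_heq he1)
      obtain ⟨rfl, he3⟩ := Prod.mk.inj (eq_of_heq he2)
      intro n
      induction n using Nat.strong_induction_on with
      | _ n ih =>
        by_cases hn : n < r + p
        · have : s n = s' n := congrFun he3 ⟨n, hn⟩
          rw [this]
        · obtain ⟨m, rfl⟩ : ∃ m, n = m + p := ⟨n - p, by omega⟩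
          refine (h1 m (by omega)).trans (Int.ModEq.trans ?_ (h2 m (by omega)).symm)
          exact Int.ModEq.sum fun i _ => (ih _ (by omega)).mul_left _
    have h3 := key (fun n => speed (CS S) n) (fun n => speed (CS S') n) _ _ _ _ _ _ (hp S)
      (hα S) (hα S') hS
    have h4 : ∀ n, speed (CS S) n % 2 = speed (CS S') n % 2 := fun n => by
      have := h3 n
      unfold Int.ModEq at this
      omega
    ext k
    by_contra hk
    by_cases h1 : k ∈ S
    · exact speed_parity S S' k h1 (fun h => hk (iff_of_true h1 h)) (h4 _)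
    · exact speed_parity S' S k (not_not.mp fun h => hk (iff_of_false h1 h)) h1 (h4 _).symm
  have : Countable (Set ℕ) := hinj.countable
  obtain ⟨f, hf⟩ := exists_surjective_nat (Set ℕ)
  exact Function.cantor_surjective f hf

end Pool.Agent.Results.MP_337eac_co.NotMCFinite
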